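import Mathlib

/-!
# Project Q (helper477), Q6: comparisons of `log t / log log t` (helper772)

The statement is `Pool.Agent.H477.O.S_QCM` (copied, Mathlib only).
-/

set_option autoImplicit false

namespace Pool.Agent.H772.Q

theorem qcm : (∀ C ℓ₀ : ℝ, 0 < C → ∃ T0 : ℝ, Real.exp (Real.exp 1) ≤ T0 ∧ ∀ t ℓ : ℝ, T0 ≤ t → 1 / 2 * Real.log t - 1 ≤ ℓ → ℓ ≤ 1 / 2 * Real.log t →
    ℓ₀ ≤ ℓ ∧ C / Real.log ℓ * ℓ ≤ 2 * C * (Real.log t / Real.log (Real.log t)) ∧ C / Real.log ℓ ≤ 2 * C / Real.log (Real.log t)) ∧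
  (∀ T x : ℝ, Real.exp (Real.exp 1) ≤ T → T ≤ x → x ≤ T ^ 2 →
    Real.log x / Real.log (Real.log x) ≤ 2 * (Real.log T / Real.log (Real.log T)) ∧ 1 / Real.log (Real.log x) ≤ 1 / Real.log (Real.log T)) ∧
  (∀ E : ℝ, ∃ T0 : ℝ, Real.exp (Real.exp 1) ≤ T0 ∧ ∀ T : ℝ, T0 ≤ T → E ≤ Real.log T / Real.log (Real.log T)) := by
  have he : Real.exp 1 ≤ 3 := by
    have := Real.exp_one_lt_d9
    linarith
  refine ⟨fun C ℓ₀ hC => ?_, fun T x hT hx hx2 => ?_, fun E => ?_⟩
  · refine ⟨Real.exp (16 + 2 * (|ℓ₀| + 1)), Real.exp_le_exp.mpr ?_, fun t ℓ ht h1 h2 => ?_⟩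
    · linarith [abs_nonneg ℓ₀]
    · obtain ⟨L, hL⟩ : ∃ L, L = Real.log t := ⟨_, rfl⟩
      rw [← hL] at h1 h2 ⊢
      have ht0 : 0 < t := (Real.exp_pos _).trans_le ht
      have hLb : 16 + 2 * (|ℓ₀| + 1) ≤ L := by
        rw [hL, Real.le_log_iff_exp_le ht0]
        exact ht
      have hab := abs_nonneg ℓ₀
      have hab2 := le_abs_self ℓ₀
      have hL16 : 16 ≤ L := by linarith
      have hlow : L / 4 ≤ ℓ := by linarith
      have hℓ0 : 0 < ℓ := by linarith
      have hlogL : 0 < Real.log L := Real.log_pos (by linarith)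
      have h4 : 2 * Real.log 4 ≤ Real.log L := by
        have h5 : 2 * Real.log 4 = Real.log 16 := by
          rw [show (16 : ℝ) = 4 ^ 2 by norm_num, Real.log_pow]
          norm_num
        rw [h5]
        exact Real.log_le_log (by norm_num) hL16
      have h6 : 1 / 2 * Real.log L ≤ Real.log ℓ := by
        have h7 : Real.log (L / 4) ≤ Real.log ℓ := Real.log_le_log (by linarith) hlow
        rw [Real.log_div (by linarith) (by norm_num)] at h7
        linarith
      have h8 : C / Real.log ℓ ≤ 2 * C / Real.log L := by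
        rw [div_le_div_iff₀ (by linarith) hlogL]
        nlinarith
      refine ⟨by linarith, ?_, h8⟩
      have h9 : 0 ≤ 2 * C / Real.log L := by positivity
      calc C / Real.log ℓ * ℓ ≤ 2 * C / Real.log L * ℓ := mul_le_mul_of_nonneg_right h8 hℓ0.le
        _ ≤ 2 * C / Real.log L * L := mul_le_mul_of_nonneg_left (by linarith) h9
        _ = 2 * C * (L / Real.log L) := by ring
  · have hT0 : 0 < T := (Real.exp_pos _).trans_le hT
    obtain ⟨L, hL⟩ : ∃ L, L = Real.log T := ⟨_, rfl⟩
    have hLb : Real.exp 1 ≤ L := by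
      rw [hL, Real.le_log_iff_exp_le hT0]
      exact hT
    have hL0 : 0 < L := (Real.exp_pos _).trans_le hLb
    have hlogL : 1 ≤ Real.log L := by
      rw [Real.le_log_iff_exp_le hL0]
      exact hLb
    have h1 : L ≤ Real.log x := by
      rw [hL]
      exact Real.log_le_log hT0 hx
    have h2 : Real.log x ≤ 2 * L := by
      have h3 : Real.log x ≤ Real.log (T ^ 2) := Real.log_le_log (by linarith) hx2
      rw [Real.log_pow] at h3
      rw [hL]
      exact_mod_cast h3
    have h4 : Real.log L ≤ Real.log (Real.log x) := Real.log_le_log hL0 h1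
    rw [← hL]
    refine ⟨?_, one_div_le_one_div_of_le (by linarith) h4⟩
    calc Real.log x / Real.log (Real.log x) ≤ Real.log x / Real.log L :=
          div_le_div_of_nonneg_left (by linarith) (by linarith) h4
      _ ≤ 2 * L / Real.log L := div_le_div_of_nonneg_right h2 (by linarith)
      _ = 2 * (L / Real.log L) := by ring
  · refine ⟨Real.exp (Real.exp (1 + 2 * |E|)), Real.exp_le_exp.mpr (Real.exp_le_exp.mpr ?_),
      fun T hT => ?_⟩
    · linarith [abs_nonneg E]
    · have hT0 : 0 < T := (Real.exp_pos _).trans_le hT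
      obtain ⟨L, hL⟩ : ∃ L, L = Real.log T := ⟨_, rfl⟩
      have hLb : Real.exp (1 + 2 * |E|) ≤ L := by
        rw [hL, Real.le_log_iff_exp_le hT0]
        exact hT
      have hL0 : 0 < L := (Real.exp_pos _).trans_le hLb
      obtain ⟨s, hs⟩ : ∃ s, s = Real.log L := ⟨_, rfl⟩
      have hsb : 1 + 2 * |E| ≤ s := by
        rw [hs, Real.le_log_iff_exp_le hL0]
        exact hLb
      have hLs : Real.exp s = L := by
        rw [hs, Real.exp_log hL0]
      have hE := abs_nonneg E
      have hE2 := le_abs_self E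
      have hs0 : 0 < s := by linarith
      have hq := Real.quadratic_le_exp_of_nonneg hs0.le
      rw [← hL, ← hs, le_div_iff₀ hs0]
      have h3 : E * s ≤ s / 2 * s := mul_le_mul_of_nonneg_right (by linarith) hs0.le
      rw [hLs] at hq
      have h4 : s / 2 * s = s ^ 2 / 2 := by ring
      linarith

end Pool.Agent.H772.Q
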